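import Pool.Agent.H66.VecDefs
import Pool.Agent.H37.Gen

/-! The span of an atomless subset of a computable basis lies in no maximal subspace. -/

namespace Pool.Agent.Results.MP_a0087d_lc.Yes

open Submodule Encodable Pool.Agent.H37 Pool.Agent.H66.Vec

def st (b : ℕ → Bool) (l : ℕ) : ℕ := Nat.rec 0 (fun i a => 3 * a + (b i).toNat) l

theorem st_succ (b : ℕ → Bool) (l : ℕ) : st b (l + 1) = 3 * st b l + (b l).toNat := rfl

noncomputable def key (b : ℕ → Bool) (l : ℕ) : ℚ := (st b l + 1) / 3 ^ l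

theorem key_anti (b : ℕ → Bool) : StrictAnti (key b) := strictAnti_nat_of_succ_lt fun l => by
  have : ((b l).toNat : ℚ) ≤ 1 := by cases b l <;> simp
  rw [key, key, st_succ, div_lt_div_iff₀ (by positivity) (by positivity), pow_succ]
  push_cast
  have : (0 : ℚ) < 3 ^ l := by positivity
  nlinarith

theorem low_mono (b : ℕ → Bool) : Monotone fun l => (st b l : ℚ) / 3 ^ l :=
  monotone_nat_of_le_succ fun l => by
    rw [st_succ, div_le_div_iff₀ (by positivity) (by positivity), pow_succ]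
    push_cast
    have : (0 : ℚ) ≤ 3 ^ l * (b l).toNat := by positivity
    nlinarith

theorem K1 {b c : ℕ → Bool} {l m : ℕ} (h : key b l ≤ key c m) (hl : l < m) : st b l < st c l := by
  have h1 := h.trans_lt (key_anti c hl)
  rw [key, key, div_lt_div_iff_of_pos_right (by positivity)] at h1
  exact_mod_cast lt_of_add_lt_add_right h1

theorem K2 {b c : ℕ → Bool} {l m e : ℕ} (h : key b l ≤ key c m) (hl : e ≤ l) (hm : e ≤ m) :
    st b e ≤ st c e := by
  have h1 : (st b l : ℚ) / 3 ^ l < key b l := by rw [key]; gcongr; linarith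
  have h2 := (low_mono b hl).trans_lt (h1.trans_le (h.trans ((key_anti c).antitone hm)))
  rw [key, div_lt_div_iff_of_pos_right (by positivity)] at h2
  exact Nat.lt_succ_iff.1 (by exact_mod_cast h2)

theorem st_mono {b c : ℕ → Bool} (h : ∀ i, b i = true → c i = true) (l : ℕ) : st b l ≤ st c l := by
  induction l with
  | zero => rfl
  | succ l ih =>
    have := h l
    rw [st_succ, st_succ]
    rcases hb : b l <;> rcases hc : c l <;> simp_all <;> omega

theorem st_lt (b : ℕ → Bool) (l : ℕ) : st b l < 3 ^ l := by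
  induction l with
  | zero => simp [st]
  | succ l ih => have := (b l).toNat_le; rw [st_succ, pow_succ]; omega

variable {F V Q : Type} [Field F] [AddCommGroup Q] [Module F Q]

theorem LA {π : V → Q} {C C' E : Set V} (h : LinearIndepOn F π C) (h1 : C' ⊆ C) (h2 : E ⊆ C \ C')
    {T : Submodule F Q} (hT : T.FG) (h3 : ∀ z ∈ E, π z ∈ T ⊔ span F (π '' C')) : E.Finite := by
  have a := ((linearIndepOn_union_iff_quotient (Set.disjoint_left.2 fun z hz hE => (h2 hE).2 hz)).1
    (h.mono (Set.union_subset h1 fun z hz => (h2 hz).1))).2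
  set q := (span F (π '' C')).mkQ
  haveI : Module.Finite F (T.map q) := Module.Finite.iff_fg.2 (hT.map q)
  have m : ∀ z : E, q (π z) ∈ T.map q := fun z => by
    rw [← mem_comap, comap_map_mkQ, sup_comm]; exact h3 z z.2
  exact LinearIndependent.finite_of_isNoetherian (v := fun z : E => (⟨_, m z⟩ : T.map q))
    (LinearIndependent.of_comp (T.map q).subtype a)

theorem core (π : V → Q) (B : Set V) (D : ℕ → Set V) (lev : ℕ → V → ℕ) (b : ℕ → V → ℕ → Bool)
    (hb : ∀ s t z i, s ≤ t → b s z i = true → b t z i = true)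
    (a : ℕ → Prop) (l : ℕ → List V) (x : ℕ → V) (D0 : D 0 = ∅)
    (l0 : ∀ n, {z | lev 0 z ≤ n}.Finite)
    (h0 : ∀ s, ¬a s → D (s + 1) = D s ∧ lev (s + 1) = lev s)
    (h1 : ∀ s, a s → D (s + 1) = insert (x s) (D s) ∧ x s ∉ D s ∧
      (∀ z ∉ l s, lev (s + 1) z = lev s z) ∧
      π (x s) ∈ span F (π '' {y | y ∈ l s ∧ y ≠ x s}) ∧ ∀ z ∈ l s, z ∈ B ∧ z ∉ D s ∧
        lev (s + 1) z = min (lev s (x s)) (lev s z) ∧
        key (b s (x s)) (lev s (x s)) ≤ key (b s z) (lev s z)) (e : ℕ) :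
    ∃ U : Set V, U.Finite ∧ (e = 0 → U = ∅) ∧ ∀ τ s, ∀ y ∈ B, y ∉ D s → τ ≤ st (b s y) e →
      π y ∈ span F (π '' (U ∪ {z | z ∈ B ∧ (∀ t, z ∉ D t) ∧ ∃ t, τ ≤ st (b t z) e})) := by
  have Dm : Monotone D := monotone_nat_of_le_succ fun s => by
    by_cases h : a s
    · rw [(h1 s h).1]; exact Set.subset_insert _ _
    · rw [(h0 s h).1]
  have lm : ∀ z, Antitone fun s => lev s z := fun z => antitone_nat_of_succ_le fun s => by
    by_cases h : a s
    · by_cases hz : z ∈ l s
      · rw [((h1 s h).2.2.2.2 z hz).2.2.1]; exact min_le_right _ _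
      · rw [(h1 s h).2.2.1 z hz]
    · rw [(h0 s h).2]
  have sm : ∀ z n s t, s ≤ t → st (b s z) n ≤ st (b t z) n := fun z n s t h =>
    st_mono (fun i => hb s t z i h) n
  have Z : ∀ S : Set V, S.Finite → (⋃ s ∈ {s | a s ∧ x s ∈ S}, {z | z ∈ l s}).Finite := by
    intro S hS
    refine Set.Finite.biUnion (hS.of_injOn (f := x) (fun s hs => hs.2) fun s hs t ht h => ?_)
      fun s _ => List.finite_toSet _
    have k : ∀ s t, a s → a t → x s = x t → ¬s < t := fun s t hs ht h hlt =>
      (h1 t ht).2.1 (Dm hlt (by rw [(h1 s hs).1, h]; exact Set.mem_insert _ _))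
    exact le_antisymm (not_lt.1 (k t s ht.1 hs.1 h.symm)) (not_lt.1 (k s t hs.1 ht.1 h))
  have U : ∀ n, {z | ∃ s, lev s z < n}.Finite := by
    intro n
    induction n with
    | zero => simp
    | succ n ih =>
      have S : ∀ v, {z | ∃ s, lev s z ≤ n ∧ st (b s z) n < v}.Finite := by
        intro v
        induction v with
        | zero => simp
        | succ v iv =>
          refine ((l0 n).union (Z _ (ih.union iv))).subset ?_
          rintro z ⟨s, k1, k2⟩
          induction s with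
          | zero => exact Or.inl k1
          | succ s is =>
            by_cases k3 : lev s z ≤ n
            · exact is k3 ((sm z n s _ (by omega)).trans_lt k2)
            have ha : a s := by_contra fun h => k3 ((h0 s h).2 ▸ k1)
            have hz : z ∈ l s := by_contra fun h => k3 ((h1 s ha).2.2.1 z h ▸ k1)
            obtain ⟨-, -, k4, k5⟩ := (h1 s ha).2.2.2.2 z hz
            refine Or.inr (Set.mem_biUnion (x := s) ⟨ha, ?_⟩ hz)
            by_cases k6 : lev s (x s) < n
            · exact Or.inl ⟨s, k6⟩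
            · have k7 : lev s (x s) = n := by omega
              have := K1 k5 (by omega)
              rw [k7] at this
              have := sm z n s (s + 1) (by omega)
              exact Or.inr ⟨s, k7.le, by omega⟩
      exact (S (3 ^ n)).subset fun z ⟨s, hs⟩ => ⟨s, by omega, st_lt _ _⟩
  refine ⟨_, U e, fun h => by simp [h], fun τ s y y1 y2 y3 => ?_⟩
  have I : ∀ t, s ≤ t → π y ∈ span F (π '' ({z | ∃ s, lev s z < e} ∪
      {z | z ∈ B ∧ z ∉ D t ∧ τ ≤ st (b t z) e ∧ lev t z ≤ lev 0 y})) := by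
    intro t ht
    induction t, ht using Nat.le_induction with
    | base => exact subset_span ⟨y, Or.inr ⟨y1, y2, y3, lm y (Nat.zero_le _)⟩, rfl⟩
    | succ t ht ih =>
      refine span_le.2 ?_ ih
      rintro _ ⟨z, z1 | ⟨z1, z2, z3, z4⟩, rfl⟩
      · exact subset_span ⟨z, Or.inl z1, rfl⟩
      by_cases k : z ∈ D (t + 1)
      swap
      · exact subset_span ⟨z, Or.inr ⟨z1, k, z3.trans (sm _ _ _ _ (by omega)),
          (lm z (by omega)).trans z4⟩, rfl⟩
      have ha : a t := by_contra fun h => z2 ((h0 t h).1 ▸ k)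
      obtain ⟨k1, -, -, k2, k3⟩ := h1 t ha
      obtain rfl : z = x t := by rw [k1] at k; exact k.resolve_right z2
      by_cases k4 : lev t (x t) < e
      · exact subset_span ⟨_, Or.inl ⟨t, k4⟩, rfl⟩
      refine span_mono (Set.image_mono ?_) k2
      rintro w ⟨w1, w2⟩
      obtain ⟨j1, j2, j3, j4⟩ := k3 w w1
      by_cases k5 : lev t w < e
      · exact Or.inl ⟨t, k5⟩
      refine Or.inr ⟨j1, k1 ▸ fun h => h.elim w2 j2, z3.trans ((K2 j4 (by omega)
        (by omega)).trans (sm _ _ _ _ (by omega))), by omega⟩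
  have : ∀ z, ∃ t, ∀ u, z ∈ D u → z ∈ D t := fun z => by
    by_cases h : ∃ u, z ∈ D u
    · exact h.imp fun _ h _ _ => h
    · exact ⟨0, fun u hu => (h ⟨u, hu⟩).elim⟩
  choose g hg using this
  obtain ⟨N, hN⟩ := ((U (lev 0 y + 1)).image g).bddAbove
  refine span_mono (Set.image_mono (Set.union_subset_union_right _ ?_))
    (I (max s N) (le_max_left _ _))
  rintro z ⟨z1, z2, z3, z4⟩
  exact ⟨z1, fun u hu => z2 (Dm ((hN ⟨z, ⟨max s N, by omega⟩, rfl⟩).trans (le_max_right _ _))
    (hg z u hu)), _, z3⟩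

variable [Primcodable F] [Primcodable V] [DecidableEq V]

def lv (L : List (V × ℕ)) (z : V) : ℕ :=
  L.foldr (fun p m => cond (decide (p.1 = z)) (min p.2 m) m) (encode z)

def bt (s : ℕ) (z : V) (i : ℕ) : Bool := (ev i (encode z) s).isSome

def pick (L : List (V × ℕ)) (s : ℕ) (l : List V) : Option V := l.find? fun x => l.all fun z =>
  decide ((st (bt s x) (lv L x) + 1) * 3 ^ lv L z ≤ (st (bt s z) (lv L z) + 1) * 3 ^ lv L x)

def ls (V : Type) [Primcodable V] (s : ℕ) : List V × ℕ := (decode s).getD ([], 0)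

def act (R : List V → ℕ → Bool) (s : ℕ) (σ : List V × List (V × ℕ)) : Option V :=
  cond (R (ls V s).1 (ls V s).2 && (ls V s).1.all fun z => !decide (z ∈ σ.1))
    (pick σ.2 s (ls V s).1) none

def run (R : List V → ℕ → Bool) (s : ℕ) : List V × List (V × ℕ) :=
  Nat.rec ([], []) (fun s σ => (act R s σ).elim σ fun x =>
    (x :: σ.1, (ls V s).1.map (fun z => (z, lv σ.2 x)) ++ σ.2)) s

@[fun_prop] theorem ci_lv {α : Type} [Primcodable α] {L : α → List (V × ℕ)} {z : α → V}
    (hL : CI ∅ L) (hz : CI ∅ z) : CI ∅ fun a => lv (L a) (z a) := by unfold lv; fun_prop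

omit [DecidableEq V] in
@[fun_prop] theorem ci_st {α : Type} [Primcodable α] {s n : α → ℕ} {z : α → V}
    (hs : CI ∅ s) (hz : CI ∅ z) (hn : CI ∅ n) : CI ∅ fun a => st (bt (s a) (z a)) (n a) :=
  CI.nat_rec hn (CI.const _) (by unfold bt; fun_prop)

theorem ci_run {R : List V → ℕ → Bool} (hR : CI ∅ fun q : List V × ℕ => R q.1 q.2) :
    CI ∅ (run R) := by
  have h1 : CI ∅ (ls V) := by unfold ls; fun_prop
  have h2 : CI ∅ fun q : List (V × ℕ) × ℕ × List V => pick q.1 q.2.1 q.2.2 := by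
    unfold pick; fun_prop
  have h3 : CI ∅ fun q : ℕ × List V × List (V × ℕ) => act R q.1 q.2 :=
    CI.cond (CI.and (hR.comp (h1.comp (by fun_prop))) (by fun_prop))
      (h2.comp (g := fun q : ℕ × List V × List (V × ℕ) => (q.2.2, q.1, (ls V q.1).1))
        (by fun_prop)) (CI.const _)
  exact CI.nat_rec CI.id' (CI.const _) (CI.elim (h3.comp (by fun_prop)) (by fun_prop)
    (by fun_prop))

theorem lv_app (l : List V) (n : ℕ) (L : List (V × ℕ)) (z : V) :
    lv (l.map (fun z => (z, n)) ++ L) z = if z ∈ l then min n (lv L z) else lv L z := by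
  induction l with
  | nil => simp
  | cons a l ih =>
    change cond (decide (a = z)) (min n (lv (_ ++ _) z)) (lv (_ ++ _) z) = _
    rw [ih]
    by_cases h : a = z
    · by_cases h' : z ∈ l <;> simp [h, h']
    · simp [h, Ne.symm h]

theorem cmp_iff (b c : ℕ → Bool) (l m : ℕ) :
    (st b l + 1) * 3 ^ m ≤ (st c m + 1) * 3 ^ l ↔ key b l ≤ key c m := by
  rw [key, key, div_le_div_iff₀ (by positivity) (by positivity)]
  exact_mod_cast Iff.rfl

variable [AddCommGroup V] [Module F V]

theorem re_span (h : IsVInf F V) {α : Type} [Primcodable α] {p : α → V → Prop}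
    (hp : REPred fun q : α × V => p q.1 q.2) :
    REPred fun q : α × V => q.2 ∈ span F {v | p q.1 v} := by
  have h1 := ci_iff.2 h.2.2.1
  have h2 := ci_iff.2 h.2.2.2.1
  have : REPred fun q : (α × V) × List (F × V) => (∀ w ∈ q.2, p q.1.1 w.2) ∧
      q.2.foldr (fun w a => w.1 • w.2 + a) 0 = q.1.2 :=
    re_and (re_forall_mem (REPred.comp' hp (g := fun r : ((α × V) × List (F × V)) × F × V =>
      (r.1.1.1, r.2.2)) (by fun_prop)) (by fun_prop)) (re_of_bool (fun q => decide
        (q.2.foldr (fun w a => w.1 • w.2 + a) 0 = q.1.2)) (CI.eq (CI.foldr (CI.comp2 h.2.2.1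
          (CI.comp2 h.2.2.2.1 (by fun_prop) (by fun_prop)) (by fun_prop)) (CI.const _)
          (CI.snd CI.id')) (by fun_prop)) fun _ => by simp)
  refine (re_exists (p := fun (q : α × V) (l : List (F × V)) => (∀ w ∈ l, p q.1 w.2) ∧
    l.foldr (fun w a => w.1 • w.2 + a) 0 = q.2) this).of_eq fun ⟨a, v⟩ => ⟨?_, fun hv => ?_⟩
  · rintro ⟨l, k, rfl⟩
    induction l with
    | nil => exact zero_mem _
    | cons w l ih =>
      exact add_mem (smul_mem _ _ (subset_span (k w (by simp)))) (ih fun x hx => k x (by simp [hx]))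
  · have e : ∀ l : List (F × V), l.foldr (fun w a => w.1 • w.2 + a) 0 =
        (l.map fun w => w.1 • w.2).sum := fun l => by induction l <;> simp [*]
    simp only [e] at hv ⊢
    induction hv using span_induction with
    | mem x hx => exact ⟨[(1, x)], by simpa using hx, by simp⟩
    | zero => exact ⟨[], by simp, rfl⟩
    | add x y _ _ hx hy =>
      obtain ⟨l, a1, rfl⟩ := hx
      obtain ⟨m, b1, rfl⟩ := hy
      exact ⟨l ++ m, by simp only [List.mem_append]; rintro w (h | h); exacts [a1 w h, b1 w h],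
        by simp⟩
    | smul c x _ hx =>
      obtain ⟨l, a1, rfl⟩ := hx
      exact ⟨l.map fun w => (c * w.1, w.2), List.forall_mem_map.2 a1,
        by simp [List.smul_sum, Function.comp_def, mul_smul]⟩

omit [Primcodable F] [Primcodable V] [DecidableEq V] in
theorem exT {W : Submodule F V} (h : Module.Finite F (V ⧸ W)) :
    ∃ T : Submodule F V, T.FG ∧ W ⊔ T = ⊤ := by
  obtain ⟨s, hs⟩ := h.fg_top
  choose g hg using W.mkQ_surjective
  refine ⟨_, fg_span (s.finite_toSet.image g), (map_mkQ_eq_top _ _).1 ?_⟩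
  rw [← span_image, Set.image_image]; simpa [hg] using hs

theorem result {F V : Type} [Field F] [AddCommGroup V] [Module F V] [Primcodable F]
    [Primcodable V] (h : IsVInf F V) (B A : Set V) (hB : CompBasis F B) (hA : AtomlessIn B A) :
    ¬∃ M : Submodule F V, MaxSub M ∧ span F A ≤ M := by
  classical
  rintro ⟨M, ⟨m1, m2, m3⟩, hM⟩
  have rB : REPred (· ∈ B) := hB.1.to_re
  have cl : ∀ (S : Set V) v, v ∈ span F {y | y ∈ M ∨ y ∈ S} ↔ M.mkQ v ∈ span F (M.mkQ '' S) := by
    intro S v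
    rw [span_image, ← mem_comap, comap_map_mkQ, ← span_eq M, ← span_union, span_eq]; rfl
  let Ci : List V → Prop := fun l => l.isEmpty = false ∧ ∀ z ∈ l, z ∈ B ∧
    z ∈ span F {y | y ∈ M ∨ y ∈ {y | y ∈ l ∧ y ≠ z}}
  have rC : REPred Ci := re_and (re_of_bool (fun l => !l.isEmpty) (by fun_prop) (by simp))
    (re_forall_mem (p := fun (l : List V) z => z ∈ B ∧ z ∈ span F {y | y ∈ M ∨ y ∈ {y | y ∈ l ∧
      y ≠ z}}) (re_and (REPred.comp' rB (CI.snd CI.id')) (REPred.comp' (re_span h
      (p := fun (a : List V × V) y => y ∈ M ∨ y ∈ {y | y ∈ a.1 ∧ y ≠ a.2}) (re_or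
        (REPred.comp' m1 (by fun_prop)) (re_of_bool (fun q => decide (q.2 ∈ q.1.1) &&
          !decide (q.2 = q.1.2)) (by fun_prop) (by simp))))
      (g := fun q : List V × V => (q, q.2)) (by fun_prop))) CI.id')
  obtain ⟨R, hR, -, eR⟩ := re_stage rC
  have hr := ci_run hR
  let D : ℕ → Set V := fun s => {z | z ∈ (run R s).1}
  have sp : ∀ s x, act R s (run R s) = some x → Ci (ls V s).1 ∧ (∀ z ∈ (ls V s).1, z ∉ D s) ∧
      x ∈ (ls V s).1 ∧ ∀ z ∈ (ls V s).1, key (bt s x) (lv (run R s).2 x) ≤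
        key (bt s z) (lv (run R s).2 z) := by
    intro s x hx
    unfold act at hx
    rcases k : (R (ls V s).1 (ls V s).2 && (ls V s).1.all fun z => !decide (z ∈ (run R s).1))
    · simp [k] at hx
    rw [k, cond_true] at hx
    simp only [Bool.and_eq_true, List.all_eq_true] at k
    have := List.find?_some hx
    simp only [List.all_eq_true, decide_eq_true_eq, cmp_iff] at this
    exact ⟨(eR _).2 ⟨_, k.1⟩, fun z hz => by simpa [D] using k.2 z hz,
      List.mem_of_find?_eq_some hx, this⟩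
  have rs : ∀ s, run R (s + 1) = (act R s (run R s)).elim (run R s) fun x => (x :: (run R s).1,
    (ls V s).1.map (fun z => (z, lv (run R s).2 x)) ++ (run R s).2) := fun _ => rfl
  have co := core (F := F) M.mkQ B D (fun s => lv (run R s).2) bt
    (fun s t z i hst hh => by
      obtain ⟨v, hv⟩ := Option.isSome_iff_exists.1 hh
      simp [bt, ev_mono hst hv])
    (fun s => (act R s (run R s)).isSome) (fun s => (ls V s).1)
    (fun s => (act R s (run R s)).getD 0) (by simp [D, run])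
    (fun n => (Set.finite_le_nat n).preimage encode_injective.injOn)
    (fun s hs => by simp only [D, rs, Option.not_isSome_iff_eq_none.1 hs]; exact ⟨rfl, rfl⟩)
    (fun s hs => by
      obtain ⟨x, hx⟩ := Option.isSome_iff_exists.1 hs
      obtain ⟨k1, k2, k3, k4⟩ := sp s x hx
      simp only [rs, hx, Option.getD_some, Option.elim, lv_app]
      exact ⟨by ext; simp [D, rs, hx], k2 x k3, fun z hz => if_neg hz, (cl _ _).1 (k1.2 x k3).2,
        fun z hz => ⟨(k1.2 z hz).1, k2 z hz, if_pos hz, k4 z hz⟩⟩)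
  let C : Set V := {z | z ∈ B ∧ ∀ t, z ∉ D t}
  have nc : ∀ l, Ci l → ¬∀ z ∈ l, z ∈ C := by
    intro l hl k
    obtain ⟨n, hn⟩ := (eR l).1 hl
    have e : ls V (encode (l, n)) = (l, n) := by simp only [ls, encodek, Option.getD_some]
    generalize encode (l, n) = s at e
    obtain ⟨x, x1, x2⟩ := l.toFinset.exists_min_image (fun x => key (bt s x) (lv (run R s).2 x))
      (by cases l; simp [Ci] at hl; simp)
    have : (act R s (run R s)).isSome := by
      simp only [act, e, hn, Bool.true_and]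
      rw [List.all_eq_true.2 fun z hz => by simpa [D] using (k z hz).2 s, cond_true, pick,
        List.find?_isSome]
      exact ⟨x, by simpa using x1, by simpa [cmp_iff] using x2⟩
    obtain ⟨y, hy⟩ := Option.isSome_iff_exists.1 this
    exact (k y (by simpa [e] using (sp s y hy).2.2.1)).2 (s + 1) (by simp [D, rs, hy])
  have ind : LinearIndepOn F M.mkQ C := by
    refine linearIndepOn_iff.2 fun g g1 g2 => by_contra fun g3 => nc g.support.toList
      ⟨by simpa using g3, fun z hz => ⟨(g1 (by simpa using hz)).1, (cl _ _).2 ?_⟩⟩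
      fun z hz => g1 (by simpa using hz)
    rw [Finset.mem_toList] at hz
    rw [Finsupp.linearCombination_apply, Finsupp.sum, ← Finset.add_sum_erase _ _ hz,
      add_eq_zero_iff_eq_neg] at g2
    rw [← smul_mem_iff _ (Finsupp.mem_support_iff.1 hz), g2]
    exact neg_mem (sum_mem fun y hy => smul_mem _ _ (subset_span ⟨y, by simpa [and_comm] using hy,
      rfl⟩))
  have top : ∀ P : Submodule F (V ⧸ M), (∀ y ∈ B, M.mkQ y ∈ P) → P = ⊤ := fun P hP => by
    rw [eq_top_iff, ← range_mkQ, LinearMap.range_eq_map, ← hB.2.2, ← span_image, span_le]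
    rintro _ ⟨y, hy, rfl⟩; exact hP y hy
  have inf : C.Infinite := fun hC => m2 <| by
    obtain ⟨U, -, u, hU⟩ := co 0
    refine ⟨by
      rw [← top (span F (M.mkQ '' C)) fun y hy => span_mono (Set.image_mono ?_)
        (hU 0 0 y hy (by simp [D, run]) (Nat.zero_le _))]
      exacts [fg_span (hC.image M.mkQ), by
        rw [u rfl]; rintro z (h | h); exacts [h.elim, ⟨h.1, h.2.1⟩]]⟩
  refine hA.2.2.2 ⟨B \ C, fun a ha => ⟨hA.2.1 ha, fun k => nc [a] ⟨rfl, by
    intro z hz
    rw [List.mem_singleton.1 hz]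
    exact ⟨hA.2.1 ha, subset_span (Or.inl (hM (subset_span ha)))⟩⟩ (by simpa using k)⟩,
    (re_and rB (re_exists (p := fun z t => z ∈ D t) (re_of_bool (fun q => decide
      (q.1 ∈ (run R q.2).1)) (by fun_prop) (by simp [D])))).of_eq fun z => by
        simp +contextual [C, iff_def], Set.diff_subset,
    inf.mono fun z hz => ⟨hz.1, fun k => k.2 hz⟩, fun W w1 w2 w3 => ?_⟩
  obtain ⟨i, hi⟩ := re_index w1
  obtain ⟨U, u, -, hU⟩ := co (i + 1)
  let G : ℕ → Set V := fun τ => {z | z ∈ B ∧ (∀ t, z ∉ D t) ∧ ∃ t, τ ≤ st (bt t z) (i + 1)}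
  have ex : ∃ τ, (G (τ + 1)).Finite := ⟨3 ^ (i + 1), Set.finite_empty.subset fun z ⟨_, _, t, k⟩ =>
    by have := st_lt (bt t z) (i + 1); omega⟩
  have g1 := Nat.find_spec ex
  have g2 : (G (Nat.find ex)).Infinite := by
    rcases k : Nat.find ex with _ | τ
    · exact inf.mono fun z hz => ⟨hz.1, hz.2, 0, Nat.zero_le _⟩
    · exact Nat.find_min ex (by omega)
  generalize Nat.find ex = τ at g1 g2
  let Y : Set V := {y | y ∈ B ∧ ∃ s, y ∉ D s ∧ τ ≤ st (bt s y) (i + 1)}
  have rY : REPred fun v => v ∈ span F {y | y ∈ M ∨ y ∈ Y} := REPred.comp' (re_span h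
    (p := fun (_ : ℕ) y => y ∈ M ∨ y ∈ Y) (REPred.comp' (re_or m1 (re_and rB (re_exists
      (p := fun y s => y ∉ D s ∧ τ ≤ st (bt s y) (i + 1)) (re_of_bool (fun q => !decide
        (q.1 ∈ (run R q.2).1) && decide (τ ≤ st (bt q.2 q.1) (i + 1))) (by fun_prop)
        (by simp [D]))))) (by fun_prop))) (g := fun v => (0, v)) (by fun_prop)
  have g3 : (C \ G τ).Finite := by
    obtain k | k := m3 _ rY fun v hv => subset_span (Or.inl hv)
    · refine (g2 (LA ind (Set.empty_subset _) (fun z hz => ⟨⟨hz.1, hz.2.1⟩, id⟩)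
        (Module.Finite.iff_fg.1 k) fun z ⟨z1, z2, t, z3⟩ => mem_sup_left ?_)).elim
      exact mem_map_of_mem (subset_span (Or.inr ⟨z1, t, z2 t, z3⟩))
    · obtain ⟨T, t1, t2⟩ := exT k
      refine LA ind (C' := G τ) (fun z hz => ⟨hz.1, hz.2.1⟩) subset_rfl
        ((t1.map M.mkQ).sup (fg_span (u.image M.mkQ))) fun z _ => ?_
      obtain ⟨a, a1, c, c1, rfl⟩ := mem_sup.1 (t2 ▸ mem_top : z ∈ _ ⊔ T)
      rw [map_add, sup_assoc, ← span_union, ← Set.image_union]
      refine add_mem (mem_sup_right (span_le.2 ?_ ((cl _ _).1 a1)))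
        (mem_sup_left (mem_map_of_mem c1))
      rintro _ ⟨y, ⟨y1, s, y2, y3⟩, rfl⟩
      exact hU τ s y y1 y2 y3
  have g4 : ∀ z ∈ C, z ∉ C \ G τ ∪ G (τ + 1) → (z ∈ W ↔ τ % 3 = 1) := by
    intro z hz k
    simp only [Set.mem_union, not_or] at k
    obtain ⟨-, -, t, ht⟩ : z ∈ G τ := by_contra fun j => k.1 ⟨hz, j⟩
    have e : ∀ s, t ≤ s → (bt s z i = true ↔ τ % 3 = 1) := fun s hs => by
      have j1 : st (bt s z) (i + 1) ≤ τ := not_lt.1 fun j => k.2 ⟨hz.1, hz.2, s, j⟩
      have j2 := ht.trans (st_mono (b := bt t z) (c := bt s z) (fun j hh => by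
        obtain ⟨v, hv⟩ := Option.isSome_iff_exists.1 hh
        simp [bt, ev_mono hs hv]) (i + 1))
      rw [st_succ] at j1 j2
      rcases j : bt s z i <;> simp [j] at j1 j2 ⊢ <;> omega
    refine (hi z).trans ⟨fun ⟨s, hs⟩ => (e (max t s) (le_max_left _ _)).1 ?_,
      fun j => ⟨t, (e t le_rfl).2 j⟩⟩
    obtain ⟨v, hv⟩ := Option.isSome_iff_exists.1 hs
    simp [bt, ev_mono (le_max_right t s) hv]
  by_cases k : τ % 3 = 1
  · exact Or.inr ((g3.union g1).subset fun z hz => by_contra fun j => hz.2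
      ((g4 z (by_contra fun j => hz.2 (w2 ⟨hz.1, j⟩)) j).2 k))
  · exact Or.inl ((g3.union g1).subset fun z hz => by_contra fun j => k
      ((g4 z (by_contra fun j => hz.2 ⟨w3 hz.1, j⟩) j).1 hz.1))

end Pool.Agent.Results.MP_a0087d_lc.Yes
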